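import Pool.Agent.H654R5.PT.Stm

set_option autoImplicit false

/-!
# UNI: the machine is universal, and description of its nonrandom board strings
-/

namespace Pool.Agent.H654R5.PT.UNI

open Pool.Agent.NPC

theorem mem_randomStrings {V : List Bool →. List Bool} {x : List Bool} :
    x ∈ H544R2.randomStrings V ↔ ∀ p, x ∈ V p → x.length ≤ p.length := by
  unfold H544R2.randomStrings H544R2.plainC
  simp [le_iInf_iff]

theorem markB_mono (h2 : S_INV) {n m : ℕ} (h : n ≤ m) {w : List Bool}
    (hw : markB eA eT n w = true) : markB eA eT m w = true := by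
  obtain ⟨i1, i2, -⟩ := h2 eA eT
  unfold markB at *
  rw [Bool.or_eq_true] at *
  rcases hw with hw | hw
  · exact Or.inl (i1 n m _ h hw)
  · right
    rw [List.any_eq_true] at *
    obtain ⟨p, hp, hq⟩ := hw
    exact ⟨p, (i2 n m h).subset hp, hq⟩

theorem Un_mono (h2 : S_INV) {k k' : ℕ} (h : k ≤ k') {p x : List Bool} (hx : x ∈ Un k p) :
    x ∈ Un k' p := by
  unfold Un at *
  by_cases h1 : p.take 66 = List.replicate 66 true
  · rw [if_pos h1] at hx ⊢
    exact H544R2.Vn_mono h hx
  · rw [if_neg h1] at hx ⊢
    by_cases h3 : p.take 1 = [false] ∧ markB eA eT k (p.drop 1) = true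
    · rw [if_pos h3] at hx
      rw [if_pos ⟨h3.1, markB_mono h2 h h3.2⟩]
      exact hx
    · rw [if_neg h3] at hx
      simp at hx

theorem partrec_U (h1 : S_CPT) : Partrec U :=
  Partrec.rfindOpt (h1.comp (Computable.pair Computable.snd Computable.fst)).to₂

theorem mem_U (h2 : S_INV) {p x : List Bool} : x ∈ U p ↔ ∃ k, x ∈ Un k p :=
  Nat.rfindOpt_mono fun hmn ha => Un_mono h2 hmn ha

theorem isUniversal_U (h1 : S_CPT) (h2 : S_INV) : H544R2.IsUniversal U := by
  refine ⟨partrec_U h1, fun M hM => ?_⟩
  obtain ⟨e, he⟩ := H544R2.Vn_universal hM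
  refine ⟨List.replicate 66 true ++ (List.replicate e false ++ [true]), fun p => ?_⟩
  apply Part.ext
  intro x
  rw [mem_U h2, he]
  have h1 : List.replicate 66 true ++ (List.replicate e false ++ [true]) ++ p =
      List.replicate 66 true ++ (List.replicate e false ++ true :: p) := by simp
  constructor
  · rintro ⟨k, hk⟩
    refine ⟨k, ?_⟩
    unfold Un at hk
    rw [h1, List.take_left' (by simp), if_pos rfl, List.drop_left' (by simp)] at hk
    exact hk
  · rintro ⟨k, hk⟩
    refine ⟨k, ?_⟩
    unfold Un
    rw [h1, List.take_left' (by simp), if_pos rfl, List.drop_left' (by simp)]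
    exact hk

theorem eA_iff {w : List Bool} : (∃ n, eA n = some w) ↔
    ∃ p k y, y ∈ H544R2.Vn k p ∧ p.length + 66 < y.length ∧ y.take 2 = [false, false] ∧
      y.drop 2 = w := by
  constructor
  · rintro ⟨n, hn⟩
    unfold eA at hn
    rw [Option.bind_eq_some_iff] at hn
    obtain ⟨⟨p, k⟩, _, hn⟩ := hn
    rw [Option.bind_eq_some_iff] at hn
    obtain ⟨y, hy, hn⟩ := hn
    split_ifs at hn with hc
    exact ⟨p, k, y, hy, hc.1, hc.2, Option.some.inj hn⟩
  · rintro ⟨p, k, y, hy, h1, h2, h3⟩
    refine ⟨Encodable.encode (p, k), ?_⟩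
    unfold eA
    rw [Encodable.encodek, Option.bind_some]
    simp only
    rw [Option.mem_def] at hy
    rw [hy, Option.bind_some, if_pos ⟨h1, h2⟩, h3]

theorem not_random_iff (h2 : S_INV) (w : List Bool) :
    false :: false :: w ∉ H544R2.randomStrings U ↔
      (∃ n, eA n = some w) ∨ ∃ n, markB eA eT n w = true := by
  rw [mem_randomStrings]
  push Not
  constructor
  · rintro ⟨p, hp, hlen⟩
    rw [List.length_cons, List.length_cons] at hlen
    obtain ⟨k, hk⟩ := (mem_U h2).1 hp
    unfold Un at hk
    split_ifs at hk with h3 h4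
    · left
      refine eA_iff.2 ⟨p.drop 66, k, false :: false :: w, hk, ?_, rfl, rfl⟩
      have h5 : 66 ≤ p.length := by
        have := congrArg List.length h3
        rw [List.length_take, List.length_replicate] at this
        omega
      rw [List.length_drop, List.length_cons, List.length_cons]
      omega
    · right
      rw [Option.mem_def, Option.some.injEq] at hk
      have h5 : p.drop 1 = w := by simpa using hk
      have h6 := h4.2
      rw [h5] at h6
      exact ⟨k, h6⟩
    · simp at hk
  · rintro (h | ⟨n, hn⟩)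
    · obtain ⟨p, k, y, hy, h3, h4, h5⟩ := eA_iff.1 h
      have hyc : y = false :: false :: w := by
        have e : y = [false, false] ++ y.drop 2 := by
          conv_lhs => rw [← List.take_append_drop 2 y]
          rw [h4]
        rw [e, h5]
        rfl
      refine ⟨List.replicate 66 true ++ p, (mem_U h2).2 ⟨k, ?_⟩, ?_⟩
      · unfold Un
        rw [List.take_left' (by simp), if_pos rfl, List.drop_left' (by simp), ← hyc]
        exact hy
      · rw [← hyc, List.length_append, List.length_replicate]
        omega
    · refine ⟨false :: w, (mem_U h2).2 ⟨n, ?_⟩, ?_⟩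
      · unfold Un
        rw [if_neg (by
          rw [List.take_succ_cons, List.replicate_succ]
          simp), if_pos ⟨by simp, by
            change markB eA eT n w = true
            exact hn⟩]
        rfl
      · simp

theorem UNI_proof (h1 : S_CPT) (h2 : S_INV) : S_UNI :=
  ⟨isUniversal_U h1 h2, not_random_iff h2⟩

end Pool.Agent.H654R5.PT.UNI
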